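import Pool.Agent.H98.PW.Stmts

/-!
# PW, module HEN: Hensel's lemma for power series
-/

set_option autoImplicit false

namespace Pool.PW

open Finset

namespace HENP

variable {R : Type} [CommRing R]

/-- One Newton step. -/
theorem step (g : Polynomial (PowerSeries R)) (y0 : R)
    (h2 : IsUnit (PowerSeries.constantCoeff (g.derivative.eval (PowerSeries.C y0)))) (n : ℕ)
    (y : PowerSeries R) (hy : PowerSeries.constantCoeff y = y0)
    (hg : (PowerSeries.X : PowerSeries R) ^ (n + 1) ∣ g.eval y) :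
    ∃ y' : PowerSeries R, PowerSeries.constantCoeff y' = y0 ∧
      (PowerSeries.X : PowerSeries R) ^ (n + 2) ∣ g.eval y' ∧
      (PowerSeries.X : PowerSeries R) ^ (n + 1) ∣ y' - y := by
  have hyX : (PowerSeries.X : PowerSeries R) ∣ y - PowerSeries.C y0 := by
    rw [PowerSeries.X_dvd_iff, map_sub, hy, PowerSeries.constantCoeff_C, sub_self]
  have h3 : PowerSeries.constantCoeff (g.derivative.eval y) =
      PowerSeries.constantCoeff (g.derivative.eval (PowerSeries.C y0)) := by
    have h4 := hyX.trans (Polynomial.sub_dvd_eval_sub y (PowerSeries.C y0) g.derivative)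
    rw [PowerSeries.X_dvd_iff, map_sub, sub_eq_zero] at h4
    exact h4
  have hu : IsUnit (g.derivative.eval y) := by
    rw [PowerSeries.isUnit_iff_constantCoeff, h3]
    exact h2
  obtain ⟨v, hv⟩ := hu.exists_right_inv
  obtain ⟨c, hc⟩ := hg
  refine ⟨y + (-(g.eval y * v)), ?_, ?_, ?_⟩
  · rw [map_add, map_neg, map_mul, hc, map_mul, map_pow, PowerSeries.constantCoeff_X, hy]
    rw [zero_pow (by omega), zero_mul, zero_mul, neg_zero, add_zero]
  · obtain ⟨k, hk⟩ := Polynomial.binomExpansion g y (-(g.eval y * v))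
    rw [hk]
    have h5 : g.eval y + g.derivative.eval y * (-(g.eval y * v)) + k * (-(g.eval y * v)) ^ 2 =
        g.eval y * (1 - g.derivative.eval y * v) + k * (g.eval y * v) ^ 2 := by ring
    rw [h5, hv, sub_self, mul_zero, zero_add, hc]
    have h6 : k * ((PowerSeries.X : PowerSeries R) ^ (n + 1) * c * v) ^ 2 =
        (PowerSeries.X : PowerSeries R) ^ (n + 2) *
          ((PowerSeries.X : PowerSeries R) ^ n * (k * (c * v) ^ 2)) := by
      have : (PowerSeries.X : PowerSeries R) ^ (n + 2) * (PowerSeries.X : PowerSeries R) ^ n =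
          ((PowerSeries.X : PowerSeries R) ^ (n + 1)) ^ 2 := by
        rw [← pow_add, ← pow_mul]
        congr 1
        ring
      calc k * ((PowerSeries.X : PowerSeries R) ^ (n + 1) * c * v) ^ 2 =
          ((PowerSeries.X : PowerSeries R) ^ (n + 1)) ^ 2 * (k * (c * v) ^ 2) := by ring
        _ = _ := by rw [← this]; ring
    rw [h6]
    exact Dvd.intro _ rfl
  · rw [add_sub_cancel_left, hc]
    exact ⟨-(c * v), by ring⟩

theorem hensel (g : Polynomial (PowerSeries R)) (y0 : R)
    (h1 : PowerSeries.constantCoeff (g.eval (PowerSeries.C y0)) = 0)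
    (h2 : IsUnit (PowerSeries.constantCoeff (g.derivative.eval (PowerSeries.C y0)))) :
    ∃ y : PowerSeries R, PowerSeries.constantCoeff y = y0 ∧ g.eval y = 0 := by
  have hstep : ∀ (n : ℕ) (y : {y : PowerSeries R // PowerSeries.constantCoeff y = y0 ∧
      (PowerSeries.X : PowerSeries R) ^ (n + 1) ∣ g.eval y}),
      ∃ y' : {y : PowerSeries R // PowerSeries.constantCoeff y = y0 ∧
        (PowerSeries.X : PowerSeries R) ^ (n + 1 + 1) ∣ g.eval y},
        (PowerSeries.X : PowerSeries R) ^ (n + 1) ∣ y'.1 - y.1 := by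
    rintro n ⟨y, hy, hg⟩
    obtain ⟨y', a1, a2, a3⟩ := step g y0 h2 n y hy hg
    exact ⟨⟨y', a1, a2⟩, a3⟩
  choose F hF using hstep
  have hbase : (PowerSeries.X : PowerSeries R) ^ (0 + 1) ∣ g.eval (PowerSeries.C y0) := by
    rw [zero_add, pow_one, PowerSeries.X_dvd_iff]
    exact h1
  let Y : (n : ℕ) → {y : PowerSeries R // PowerSeries.constantCoeff y = y0 ∧
      (PowerSeries.X : PowerSeries R) ^ (n + 1) ∣ g.eval y} := fun n =>
    Nat.rec ⟨PowerSeries.C y0, PowerSeries.constantCoeff_C y0, hbase⟩ (fun n y => F n y) n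
  have hY : ∀ n, (PowerSeries.X : PowerSeries R) ^ (n + 1) ∣ (Y (n + 1)).1 - (Y n).1 :=
    fun n => hF n (Y n)
  have hYm : ∀ n m, n ≤ m → (PowerSeries.X : PowerSeries R) ^ (n + 1) ∣ (Y m).1 - (Y n).1 := by
    intro n m hnm
    induction m, hnm using Nat.le_induction with
    | base => rw [sub_self]; exact dvd_zero _
    | succ m hm ih =>
      have h3 : (Y (m + 1)).1 - (Y n).1 = ((Y (m + 1)).1 - (Y m).1) + ((Y m).1 - (Y n).1) := by
        ring
      rw [h3]
      exact dvd_add ((pow_dvd_pow _ (by omega)).trans (hY m)) ih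
  let y : PowerSeries R := PowerSeries.mk fun n => PowerSeries.coeff n (Y n).1
  have hyn : ∀ n, (PowerSeries.X : PowerSeries R) ^ (n + 1) ∣ y - (Y n).1 := by
    intro n
    rw [PowerSeries.X_pow_dvd_iff]
    intro m hm
    have h3 := hYm m n (by omega)
    rw [PowerSeries.X_pow_dvd_iff] at h3
    have h4 := h3 m (by omega)
    rw [map_sub, sub_eq_zero] at h4
    rw [map_sub, PowerSeries.coeff_mk, h4, sub_self]
  refine ⟨y, ?_, ?_⟩
  · have h3 : (PowerSeries.X : PowerSeries R) ∣ y - (Y 0).1 :=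
      (dvd_pow_self _ (Nat.succ_ne_zero 0)).trans (hyn 0)
    rw [PowerSeries.X_dvd_iff, map_sub, (Y 0).2.1, sub_eq_zero] at h3
    exact h3
  · ext n
    have h3 : (PowerSeries.X : PowerSeries R) ^ (n + 1) ∣ g.eval y := by
      have h4 := (hyn n).trans (Polynomial.sub_dvd_eval_sub y (Y n).1 g)
      have h5 := dvd_add h4 (Y n).2.2
      rw [sub_add_cancel] at h5
      exact h5
    rw [PowerSeries.X_pow_dvd_iff] at h3
    rw [h3 n (by omega)]
    exact (map_zero _).symm

end HENP

theorem hen_thm : S_HEN := by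
  intro p _ g y0 h1 h2
  exact HENP.hensel g y0 h1 h2

end Pool.PW
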