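import Pool.Agent.H98.PW.Stmts

/-!
# PW, module ODE: a linear differential system with zero initial value
-/

set_option autoImplicit false

namespace Pool.PW

open Finset

theorem ode_thm : S_ODE := by
  intro K _ _ q b y M hb h0 hy
  have key : ∀ n : ℕ, ∀ j ≤ n, ∀ a, PowerSeries.coeff j (y a) = 0 := by
    intro n
    induction n with
    | zero =>
      intro j hj a
      have : j = 0 := by omega
      rw [this, PowerSeries.coeff_zero_eq_constantCoeff_apply]
      exact h0 a
    | succ n ih =>
      intro j hj a
      rcases Nat.lt_or_ge j (n + 1) with h | h
      · exact ih j (by omega) a
      · have hj' : j = n + 1 := by omega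
        rw [hj']
        have h1 := congrArg (PowerSeries.coeff n) (hy a)
        have h2 : PowerSeries.coeff n (∑ c, M a c * y c) = 0 := by
          rw [map_sum]
          apply Finset.sum_eq_zero
          intro c _
          rw [PowerSeries.coeff_mul]
          apply Finset.sum_eq_zero
          intro x hx
          rw [HasAntidiagonal.mem_antidiagonal] at hx
          rw [ih x.2 (by omega) c, mul_zero]
        rw [h2, PowerSeries.coeff_mul, Finset.sum_eq_single (0, n)] at h1
        · rw [PowerSeries.coeff_zero_eq_constantCoeff_apply, PowerSeries.coeff_derivative] at h1
          rcases mul_eq_zero.1 h1 with h3 | h3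
          · exact absurd h3 hb
          · rcases mul_eq_zero.1 h3 with h4 | h4
            · exact h4
            · exfalso
              have : ((n : K) + 1) ≠ 0 := by exact_mod_cast Nat.succ_ne_zero n
              exact this h4
        · intro x hx hne
          rw [HasAntidiagonal.mem_antidiagonal] at hx
          rw [PowerSeries.coeff_derivative]
          have hlt : x.2 + 1 ≤ n := by
            by_contra hc
            apply hne
            have h3 : x.2 = n := by omega
            have h4 : x.1 = 0 := by omega
            exact Prod.ext h4 h3
          rw [ih (x.2 + 1) hlt a, zero_mul, mul_zero]
        · intro hx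
          exfalso
          apply hx
          rw [HasAntidiagonal.mem_antidiagonal]
          simp
  intro a
  ext n
  rw [key n n le_rfl a]
  exact (map_zero _).symm

end Pool.PW
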